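import Pool.Agent.Lib_helper92.GC34.Rid
import Pool.Agent.Lib_helper49.GC34.Sub
import Pool.Agent.Lib_helper49.GC34.E5

/-! # The functional of the classical integrand -/

set_option autoImplicit false

open scoped BigOperators ComplexOrder Kronecker MatrixOrder
open MeasureTheory Set Matrix

namespace Pool.Agent.Lib_helper44.GC34

open Pool.Agent.GC34 Pool.Agent.RC

variable {ι κ : Type} [Fintype ι] [DecidableEq ι] [Fintype κ] [DecidableEq κ]

theorem herm_of_strict {A B : Matrix ι ι ℂ} {r : ℝ} (hr : 1 < r) (hV : Strict A (r • B)) :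
    A.IsHermitian ∧ B.IsHermitian := by
  have h1 := hV.add.1
  have h2 := hV.sub.1
  have hA : A.IsHermitian := by
    have h3 := h1.add h2
    have e : A + r • B + (A - r • B) = (2 : ℂ) • A := by
      rw [two_smul]
      abel
    rw [e] at h3
    have h4 : ((2 : ℂ) • A)ᴴ = (2 : ℂ) • A := h3
    rw [Matrix.conjTranspose_smul] at h4
    have h5 : star (2 : ℂ) = 2 := by simp
    rw [h5] at h4
    exact (smul_right_injective _ (two_ne_zero : (2 : ℂ) ≠ 0)) h4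
  have hB : B.IsHermitian := by
    have h3 : (r • B).IsHermitian := by
      have := h1.sub hA
      rwa [add_sub_cancel_left] at this
    have h4 : (r • B)ᴴ = r • B := h3
    rw [Matrix.conjTranspose_smul, star_trivial] at h4
    exact (smul_right_injective _ (by linarith : r ≠ 0)) h4
  exact ⟨hA, hB⟩

theorem S_det {S : Matrix ι ι ℂ} (h : IsUnit S) : IsUnit S.det :=
  (Matrix.isUnit_iff_isUnit_det S).1 h

/-- `(A + σ) + z (B + lam σ) = S diag(1 + z η) S*` -/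
theorem pencil_eq {A B : Matrix ι ι ℂ} {lam σ : ℝ} {S : Matrix ι ι ℂ} {η : ι → ℝ}
    (hS : Cg A B lam σ S η) (z : ℂ) :
    (A + σ • (1 : Matrix ι ι ℂ)) + z • (B + (lam * σ) • (1 : Matrix ι ι ℂ)) =
      S * diagonal (fun i => 1 + z * (η i : ℂ)) * Sᴴ := by
  have e : diagonal (fun i => 1 + z * (η i : ℂ)) = (1 : Matrix ι ι ℂ) + z • dg η := by
    unfold dg
    ext i j
    by_cases hij : i = j
    · subst hij; simp
    · simp [hij]
  rw [e, hS.hA, hS.hB, Matrix.mul_add, Matrix.add_mul, Matrix.mul_one, Matrix.mul_smul,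
    Matrix.smul_mul]

theorem eta_bound {A B : Matrix ι ι ℂ} {r lam σ : ℝ} (hr : 1 < r) (hV : Strict A (r • B))
    (hl : |lam| * r < 1) (hσ : 0 < σ) {S : Matrix ι ι ℂ} {η : ι → ℝ}
    (hS : Cg A B lam σ S η) (i : ι) : |η i| * r < 1 := by
  have hdet := S_det hS.unit
  have hdet' : IsUnit (Sᴴ).det := by
    rw [Matrix.det_conjTranspose]
    exact hdet.star
  have key : ∀ s : ℝ, |s| = r → (A + s • B).PosDef → 0 < 1 + s * η i := by
    intro s hs hP
    have h0 : 0 < 1 + s * lam := by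
      have : |s * lam| < 1 := by rw [abs_mul, hs, mul_comm]; exact hl
      linarith [(abs_lt.1 this).1]
    have h1 : (A + s • B + ((σ * (1 + s * lam)) • (1 : Matrix ι ι ℂ))).PosDef := by
      apply hP.add_posSemidef
      apply Matrix.PosSemidef.smul Matrix.PosSemidef.one
      positivity
    have e1 : A + s • B + ((σ * (1 + s * lam)) • (1 : Matrix ι ι ℂ)) =
        (A + σ • (1 : Matrix ι ι ℂ)) + (s : ℂ) • (B + (lam * σ) • (1 : Matrix ι ι ℂ)) := by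
      ext a b
      simp only [Matrix.add_apply, Matrix.smul_apply, Complex.real_smul, smul_eq_mul]
      push_cast
      ring
    rw [e1, pencil_eq hS] at h1
    have h2 := h1.conjTranspose_mul_mul_same (B := (Sᴴ)⁻¹) (by
      apply Matrix.mulVec_injective_of_isUnit
      rw [Matrix.isUnit_iff_isUnit_det, Matrix.det_nonsing_inv]
      exact hdet'.ringInverse)
    have e2 : ((Sᴴ)⁻¹)ᴴ * (S * diagonal (fun i => 1 + (s : ℂ) * (η i : ℂ)) * Sᴴ) * (Sᴴ)⁻¹ =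
        diagonal (fun i => 1 + (s : ℂ) * (η i : ℂ)) := by
      rw [Matrix.conjTranspose_nonsing_inv, Matrix.conjTranspose_conjTranspose]
      calc S⁻¹ * (S * diagonal (fun i => 1 + (s : ℂ) * (η i : ℂ)) * Sᴴ) * (Sᴴ)⁻¹
          = (S⁻¹ * S) * diagonal (fun i => 1 + (s : ℂ) * (η i : ℂ)) * (Sᴴ * (Sᴴ)⁻¹) := by
            simp only [Matrix.mul_assoc]
        _ = _ := by
            rw [Matrix.nonsing_inv_mul _ hdet, Matrix.mul_nonsing_inv _ hdet', Matrix.one_mul,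
              Matrix.mul_one]
    rw [e2] at h2
    have h3 := h2.diag_pos (i := i)
    rw [Matrix.diagonal_apply_eq] at h3
    have h4 : (0 : ℂ) < ((1 + s * η i : ℝ) : ℂ) := by
      push_cast
      exact h3
    exact_mod_cast h4
  have k1 := key r (abs_of_pos (by linarith)) hV.add
  have k2 := key (-r) (by rw [abs_neg, abs_of_pos (by linarith)]) (by
    rw [neg_smul, ← sub_eq_add_neg]; exact hV.sub)
  have : |η i * r| < 1 := by
    rw [abs_lt]
    constructor <;> nlinarith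
  rwa [abs_mul, abs_of_pos (show (0 : ℝ) < r by linarith)] at this

/-- the resolvent form in the congruence frame -/
theorem form_eq {A B : Matrix ι ι ℂ} {lam σ : ℝ} {S : Matrix ι ι ℂ} {η : ι → ℝ}
    (hS : Cg A B lam σ S η) (v : ι → ℂ) {z : ℂ} (hz : ∀ i, 1 + (η i : ℂ) * z ≠ 0) :
    star v ⬝ᵥ (((A + σ • (1 : Matrix ι ι ℂ)) +
      z • (B + (lam * σ) • (1 : Matrix ι ι ℂ)))⁻¹ *ᵥ v) =
      ∑ i, ((‖(S⁻¹ *ᵥ v) i‖ ^ 2 : ℝ) : ℂ) * (1 + (η i : ℂ) * z)⁻¹ := by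
  have hdet := S_det hS.unit
  have hdet' : IsUnit (Sᴴ).det := by
    rw [Matrix.det_conjTranspose]
    exact hdet.star
  have hinv : (S * diagonal (fun i => 1 + z * (η i : ℂ)) * Sᴴ)⁻¹ =
      (S⁻¹)ᴴ * diagonal (fun i => (1 + (η i : ℂ) * z)⁻¹) * S⁻¹ := by
    apply Matrix.inv_eq_right_inv
    rw [Matrix.conjTranspose_nonsing_inv]
    calc S * diagonal (fun i => 1 + z * (η i : ℂ)) * Sᴴ *
          ((Sᴴ)⁻¹ * diagonal (fun i => (1 + (η i : ℂ) * z)⁻¹) * S⁻¹)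
        = S * (diagonal (fun i => 1 + z * (η i : ℂ)) * (Sᴴ * (Sᴴ)⁻¹) *
            diagonal (fun i => (1 + (η i : ℂ) * z)⁻¹)) * S⁻¹ := by
          simp only [Matrix.mul_assoc]
      _ = S * 1 * S⁻¹ := by
          rw [Matrix.mul_nonsing_inv _ hdet', Matrix.mul_one, Matrix.diagonal_mul_diagonal]
          congr 2
          rw [← Matrix.diagonal_one]
          congr 1
          ext i
          rw [mul_comm z]
          exact mul_inv_cancel₀ (hz i)
      _ = 1 := by rw [Matrix.mul_one, Matrix.mul_nonsing_inv _ hdet]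
  rw [pencil_eq hS, hinv]
  set w := S⁻¹ *ᵥ v with hw
  have e1 : ((S⁻¹)ᴴ * diagonal (fun i => (1 + (η i : ℂ) * z)⁻¹) * S⁻¹) *ᵥ v =
      (S⁻¹)ᴴ *ᵥ (diagonal (fun i => (1 + (η i : ℂ) * z)⁻¹) *ᵥ w) := by
    rw [hw, Matrix.mulVec_mulVec, Matrix.mulVec_mulVec, Matrix.mul_assoc]
  rw [e1, Matrix.dotProduct_mulVec]
  have e2 : (star v) ᵥ* (S⁻¹)ᴴ = star w := by
    rw [hw, Matrix.star_mulVec]
  rw [e2]
  unfold dotProduct
  apply Finset.sum_congr rfl
  intro i _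
  rw [Matrix.mulVec_diagonal, Pi.star_apply]
  have e3 : ((‖w i‖ ^ 2 : ℝ) : ℂ) = star (w i) * w i := by
    rw [Complex.star_def, mul_comm, Complex.mul_conj, Complex.normSq_eq_norm_sq]
  rw [e3]
  ring

theorem one_add_ne {r l : ℝ} (hr : 1 < r) (hl : |l| * r < 1) (θ : ℝ) :
    (1 + (l : ℂ) * cz r θ) ∈ Complex.slitPlane := by
  have h := Pool.Agent.Lib_helper49.GC34.lam_cz_lt hr hl θ
  left
  have h2 := Complex.abs_re_le_norm ((l : ℂ) * cz r θ)
  rw [Complex.add_re, Complex.one_re]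
  have := (abs_le.1 h2).1
  linarith

theorem cont_pow {r l : ℝ} (hr : 1 < r) (hl : |l| * r < 1) (q : ℂ) :
    Continuous fun θ : ℝ => (1 + (l : ℂ) * cz r θ) ^ q := by
  apply Continuous.cpow
  · exact continuous_const.add (continuous_const.mul (continuous_cz r))
  · exact continuous_const
  · exact one_add_ne hr hl

theorem qf_real {A : Matrix ι ι ℂ} (hA : A.IsHermitian) (v : ι → ℂ) :
    star v ⬝ᵥ (A *ᵥ v) = ((qf A v : ℝ) : ℂ) := by
  unfold qf
  apply Complex.ext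
  · simp
  · have := hA.im_star_dotProduct_mulVec_self v
    rw [Complex.ofReal_im]
    exact this

theorem cell_Fz {p : ℝ} (h3 : 3 < p) (h4 : p < 4) {A B : Matrix ι ι ℂ} {C D : Matrix κ κ ℂ}
    {r lam σ : ℝ} (hr : 1 < r) (hV : Strict A (r • B)) (hW : Strict C D) (hl : |lam| * r < 1)
    (hσ : 0 < σ) {S : Matrix ι ι ℂ} {η : ι → ℝ} (hS : Cg A B lam σ S η) (v : ι → ℂ) :
    cf p A B lam v (ms p C D) r σ =
      (Lo p A B C D lam σ S η v + Lo p A B C (-D) lam σ S η v) / 2 := by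
  have hη := eta_bound hr hV hl hσ hS
  obtain ⟨hA, hB⟩ := herm_of_strict hr hV
  obtain ⟨K, hK⟩ := Pool.Agent.Lib_helper49.GC34.ms_bdd h3 h4
    (Pool.Agent.Lib_helper49.GC34.strict_isPair hW)
  set μ := ms p C D with hμ
  have hne : ∀ i θ, 1 + (η i : ℂ) * cz r θ ≠ 0 := fun i θ =>
    Complex.slitPlane_ne_zero (one_add_ne hr (hη i) θ)
  have hσc : (σ : ℂ) ≠ 0 := by exact_mod_cast hσ.ne'
  -- pointwise form on the circle
  have hF : cell μ r (Fz p A B lam v σ) = cell μ r (fun z =>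
      (∑ i, ((‖(S⁻¹ *ᵥ v) i‖ ^ 2 : ℝ) : ℂ) *
        ((1 + (lam : ℂ) * z) ^ ((p : ℂ) + 1) / (1 + (η i : ℂ) * z))) +
      (-((qf 1 v / σ : ℝ) : ℂ) * (1 + (lam : ℂ) * z) ^ (p : ℂ) +
      (((qf A v / σ ^ 2 : ℝ) : ℂ) * (1 + (lam : ℂ) * z) ^ ((p : ℂ) - 1) +
      ((qf B v / σ ^ 2 : ℝ) : ℂ) * ((1 + (lam : ℂ) * z) ^ ((p : ℂ) - 1) * z)))) := by
    apply cell_congr
    intro θ
    unfold Fz
    rw [form_eq hS v (fun i => hne i θ)]
    have e1 : star v ⬝ᵥ v = ((qf 1 v : ℝ) : ℂ) := by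
      rw [← qf_real Matrix.isHermitian_one, Matrix.one_mulVec]
    have e2 : star v ⬝ᵥ ((A + cz r θ • B) *ᵥ v) =
        ((qf A v : ℝ) : ℂ) + cz r θ * ((qf B v : ℝ) : ℂ) := by
      rw [Matrix.add_mulVec, dotProduct_add, Matrix.smul_mulVec, dotProduct_smul, qf_real hA,
        qf_real hB, smul_eq_mul]
    rw [e1, e2, Finset.mul_sum]
    have e3 : ∀ i, (1 + (lam : ℂ) * cz r θ) ^ ((p : ℂ) + 1) *
        (((‖(S⁻¹ *ᵥ v) i‖ ^ 2 : ℝ) : ℂ) * (1 + (η i : ℂ) * cz r θ)⁻¹) =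
        ((‖(S⁻¹ *ᵥ v) i‖ ^ 2 : ℝ) : ℂ) *
        ((1 + (lam : ℂ) * cz r θ) ^ ((p : ℂ) + 1) / (1 + (η i : ℂ) * cz r θ)) := by
      intro i
      rw [div_eq_mul_inv]
      ring
    simp_rw [e3]
    push_cast
    ring
  have c1 : ∀ i, Continuous fun θ : ℝ => ((‖(S⁻¹ *ᵥ v) i‖ ^ 2 : ℝ) : ℂ) *
      ((1 + (lam : ℂ) * cz r θ) ^ ((p : ℂ) + 1) / (1 + (η i : ℂ) * cz r θ)) := fun i =>
    continuous_const.mul ((cont_pow hr hl _).div
      (continuous_const.add (continuous_const.mul (continuous_cz r))) (hne i))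
  have c0 : Continuous fun θ : ℝ => ∑ i, ((‖(S⁻¹ *ᵥ v) i‖ ^ 2 : ℝ) : ℂ) *
      ((1 + (lam : ℂ) * cz r θ) ^ ((p : ℂ) + 1) / (1 + (η i : ℂ) * cz r θ)) :=
    continuous_finsetSum _ fun i _ => c1 i
  have c2 : Continuous fun θ : ℝ => -((qf 1 v / σ : ℝ) : ℂ) *
      (1 + (lam : ℂ) * cz r θ) ^ (p : ℂ) := continuous_const.mul (cont_pow hr hl _)
  have c3 : Continuous fun θ : ℝ => ((qf A v / σ ^ 2 : ℝ) : ℂ) *
      (1 + (lam : ℂ) * cz r θ) ^ ((p : ℂ) - 1) := continuous_const.mul (cont_pow hr hl _)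
  have c4 : Continuous fun θ : ℝ => ((qf B v / σ ^ 2 : ℝ) : ℂ) *
      ((1 + (lam : ℂ) * cz r θ) ^ ((p : ℂ) - 1) * cz r θ) :=
    continuous_const.mul ((cont_pow hr hl _).mul (continuous_cz r))
  rw [cell_add hr hK c0 (c2.add (c3.add c4)), cell_add hr hK c2 (c3.add c4),
    cell_add hr hK c3 c4, cell_sum hr hK Finset.univ (fun i _ => c1 i)] at hF
  simp_rw [cell_const_mul] at hF
  simp_rw [hμ, Pool.Agent.Lib_helper92.GC34.rid h3 h4 hW hr hl (hη _),
    Pool.Agent.Lib_helper49.GC34.sub0 h3 h4 hW hr hl,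
    Pool.Agent.Lib_helper49.GC34.sub1 h3 h4 hW hr hl,
    Pool.Agent.Lib_helper49.GC34.sub2 h3 h4 hW hr hl] at hF
  unfold cf
  rw [hF]
  have hre : ∀ x : ℝ, ∀ y : ℂ, y = (x : ℂ) → y.re = x := fun x y h => by rw [h]; simp
  apply hre
  unfold Lo
  have s1 : ∀ l : ℝ, C + l • -D = C - l • D := fun l => by rw [smul_neg, sub_eq_add_neg]
  simp_rw [s1, Matrix.mul_neg, Matrix.trace_neg, Complex.neg_re]
  push_cast
  have hsum : (∑ i, ((‖(S⁻¹ *ᵥ v) i‖ : ℂ) ^ 2 * ((Rr p (C + lam • D) (C + η i • D) : ℂ) +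
      (Rr p (C - lam • D) (C - η i • D) : ℂ)) / 2)) =
      (∑ i, (‖(S⁻¹ *ᵥ v) i‖ : ℂ) ^ 2 * (Rr p (C + lam • D) (C + η i • D) : ℂ)) / 2 +
      (∑ i, (‖(S⁻¹ *ᵥ v) i‖ : ℂ) ^ 2 * (Rr p (C - lam • D) (C - η i • D) : ℂ)) / 2 := by
    rw [← add_div, ← Finset.sum_add_distrib, Finset.sum_div]
    apply Finset.sum_congr rfl
    intro i _
    ring
  simp_rw [← mul_div_assoc]
  rw [hsum]
  ring

end Pool.Agent.Lib_helper44.GC34
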